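import Pool.Agent.UL4.Stmts

set_option autoImplicit false

namespace Pool.Agent.UL4.H50

open MeasureTheory Set

theorem mas (hseg : SegStmt) : MasStmt := by
  intro F l'' l' t x β ρ m hF hC hnn h1 h2 h3 h4 h5 h6 hβ hρ hm g1 g2 g3 g4 g5
  obtain ⟨M, hM⟩ := isCompact_Icc.bddAbove_image hF
  have hM' : ∀ t ∈ Icc (0 : ℝ) 1, F t ≤ M := fun t ht => hM (mem_image_of_mem F ht)
  -- one segment
  have hs : ∀ c d p q : ℝ, 0 ≤ c → c ≤ d → d ≤ 1 → 0 ≤ p → 0 ≤ q → p ≤ F c → q ≤ F d →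
      p ≤ β + ρ + m → q ≤ β + ρ + m →
      (d - c) * (p ^ 2 + p * q + q ^ 2) / 3 ≤ ∫ t in c..d, F t ^ 2 := by
    intro c d p q hc hcd hd hp hq hpF hqF hpr hqr
    have hsub : Icc c d ⊆ Icc 0 1 := Icc_subset_Icc hc hd
    exact (hseg F c d p q M (β + ρ + m) hcd (hF.mono hsub) (hC.subset hsub (convex_Icc c d)) hp hq
      hpF hqF hpr hqr (fun t ht => hM' t (hsub ht))).1
  have hint : ∀ c d : ℝ, 0 ≤ c → c ≤ d → d ≤ 1 →
      IntervalIntegrable (fun t => F t ^ 2) volume c d := by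
    intro c d hc hcd hd
    apply ContinuousOn.intervalIntegrable
    rw [uIcc_of_le hcd]
    exact (hF.mono (Icc_subset_Icc hc hd)).pow 2
  have e1 := hs 0 l'' 0 β le_rfl h1 (by linarith) le_rfl hβ
    (hnn 0 ⟨le_rfl, zero_le_one⟩) g1 (by linarith) (by linarith)
  have e2 := hs l'' l' β ρ h1 h2 (by linarith) hβ hρ g1 g2 (by linarith) (by linarith)
  have e3 := hs l' t ρ m (by linarith) h3 (by linarith) hρ hm g2 g3 (by linarith) (by linarith)
  have e4 := hs t (l' + 1 / 2) m ρ (by linarith) h4 (by linarith) hm hρ g3 g4 (by linarith)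
    (by linarith)
  have e5 := hs (l' + 1 / 2) (l'' + x) ρ β (by linarith) h5 (by linarith) hρ hβ g4 g5
    (by linarith) (by linarith)
  have e6 := hs (l'' + x) 1 β 0 (by linarith) h6 le_rfl hβ le_rfl g5
    (hnn 1 ⟨zero_le_one, le_rfl⟩) (by linarith) (by linarith)
  have a1 := intervalIntegral.integral_add_adjacent_intervals
    (hint 0 l'' le_rfl h1 (by linarith)) (hint l'' l' h1 h2 (by linarith))
  have a2 := intervalIntegral.integral_add_adjacent_intervals
    (hint 0 l' le_rfl (by linarith) (by linarith)) (hint l' t (by linarith) h3 (by linarith))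
  have a3 := intervalIntegral.integral_add_adjacent_intervals
    (hint 0 t le_rfl (by linarith) (by linarith)) (hint t (l' + 1 / 2) (by linarith) h4
      (by linarith))
  have a4 := intervalIntegral.integral_add_adjacent_intervals
    (hint 0 (l' + 1 / 2) le_rfl (by linarith) (by linarith))
    (hint (l' + 1 / 2) (l'' + x) (by linarith) h5 (by linarith))
  have a5 := intervalIntegral.integral_add_adjacent_intervals
    (hint 0 (l'' + x) le_rfl (by linarith) (by linarith))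
    (hint (l'' + x) 1 (by linarith) h6 le_rfl)
  rw [← a5, ← a4, ← a3, ← a2, ← a1]
  have hsum : (m ^ 2 + m * ρ + ρ ^ 2) / 6 + (x - 1 / 2) * (ρ ^ 2 + ρ * β + β ^ 2) / 3 +
      (1 - x) * β ^ 2 / 3 =
      (l'' - 0) * (0 ^ 2 + 0 * β + β ^ 2) / 3 + (l' - l'') * (β ^ 2 + β * ρ + ρ ^ 2) / 3 +
      (t - l') * (ρ ^ 2 + ρ * m + m ^ 2) / 3 + (l' + 1 / 2 - t) * (m ^ 2 + m * ρ + ρ ^ 2) / 3 +
      (l'' + x - (l' + 1 / 2)) * (ρ ^ 2 + ρ * β + β ^ 2) / 3 +
      (1 - (l'' + x)) * (β ^ 2 + β * 0 + 0 ^ 2) / 3 := by ring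
  rw [hsum]
  linarith

end Pool.Agent.UL4.H50
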